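import Pool.Agent.Lib.MP_acc225_nt.Main

/-!
# Averages of multiplicative functions on far-shifted Gaussian squares

For every `ε > 0` we construct a completely multiplicative `f : ℤ[i] → {0, 1}` whose averages over
the squares `⌊N ^ (1 + ε)⌋ + Q_N` do not converge.
-/

namespace Pool.Agent.Results.MP_acc225_nt.NonConvergence

open Filter Pool.Agent.Lib.MP_acc225_nt

/-- The shifted square `⌊N ^ (1 + ε)⌋ + Q_N`, where
`Q_N = {n : |Re n| < N, |Im n| < N}`. -/
noncomputable def shiftedSquare (ε : ℝ) (N : ℕ) : Finset GaussianInt :=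
  (Finset.Ioo (-(N : ℤ)) N ×ˢ Finset.Ioo (-(N : ℤ)) N).image
    fun z => (⟨⌊(N : ℝ) ^ (1 + ε)⌋ + z.1, z.2⟩ : GaussianInt)

theorem shiftedSquare_eq (ε : ℝ) (N : ℕ) :
    shiftedSquare ε N = box (X ε N : GaussianInt) N := by
  unfold shiftedSquare box
  apply Finset.image_congr
  intro z _
  ext <;> simp [X]

/-- For every `ε > 0` there is a completely multiplicative function `f` on the Gaussian integers,
with values in `{0, 1}`, whose averages over `⌊N ^ (1 + ε)⌋ + Q_N` do not converge. -/
theorem result (ε : ℝ) (hε : 0 < ε) : ∃ f : GaussianInt → ℝ,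
    (∀ n, f n = 0 ∨ f n = 1) ∧ (∀ m n, f (m * n) = f m * f n) ∧
    ¬ ∃ L : ℝ, Tendsto
      (fun N : ℕ => (∑ n ∈ shiftedSquare ε N, f n) / ((shiftedSquare ε N).card : ℝ))
      atTop (nhds L) := by
  simp only [shiftedSquare_eq]
  exact main hε

end Pool.Agent.Results.MP_acc225_nt.NonConvergence
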